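import Pool.Agent.H9.RP.Final

/-!
# Representation polytopes with rational character: combinatorial symmetries and affine symmetries

`IsFace v S`, `comb v`, `aff v`, `mat G`, `left G` are defined in `Pool.Agent.H9.RP.Final`.

Let `G` be a finite group of real matrices with rational traces and `P(G)` its representation polytope.
(1) `P(G)` is rigid: every polytope with the same face lattice on which the left multiplications by the
elements of `G` are affine symmetries is affinely equivalent to `P(G)`. (2) So a combinatorial symmetry
which conjugates the left multiplications into the affine symmetry group is affine. (3) So the two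
symmetry groups agree as soon as some subgroup between the group of the left multiplications and the affine
symmetry group is subnormal in the combinatorial symmetry group (for example if the latter is nilpotent).
(4) If `G` is a `p`-group, the index of the affine symmetry group is congruent to one modulo `p`: the
action of `G` on the cosets of the affine symmetry group has only one fixed point.

Proof. The affine functions on the vertices form a two-sided ideal `F` of functions on `G`, another
realisation gives a space `F'` of functions which is invariant under left translations. For every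
subgroup `H` of `G` the dimension of the `H`-invariants of `F` is the largest length of a chain of
`H`-invariant faces, and the same holds for `F'`; so all these dimensions agree. The central
idempotent of `F` is rational, hence constant on the generators of a cyclic subgroup (by the Frobenius
congruence modulo the primes in an arithmetic progression). So its trace on `F'` is a combination of the
dimensions of the invariants and equals its trace on `F`, which is `dim F = dim F'`. So `F' = F`.
-/

set_option autoImplicit false

namespace Pool.Agent.Results.MP_69dac2_co.RationalRigidity

open Pool.Agent.H9.RP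

theorem result (d : ℕ) (G : Subgroup (GL (Fin d) ℝ)) [Finite G]
    (hq : ∀ g ∈ G, ∃ q : ℚ, Matrix.trace (g : Matrix (Fin d) (Fin d) ℝ) = q) :
    -- the three groups
    (left G ≤ aff (mat G) ∧ aff (mat G) ≤ comb (mat G)) ∧
    -- (1) rigidity
    (∀ (V : Type) [AddCommGroup V] [Module ℝ V] [FiniteDimensional ℝ V] (v : G → V),
      (∀ S : Set G, IsFace (mat G) S ↔ IsFace v S) →
      (∀ g : G, ∃ T : V →ᵃ[ℝ] V, ∀ x, T (v x) = v (g * x)) →
      (∃ φ : Matrix (Fin d) (Fin d) ℝ →ᵃ[ℝ] V, ∀ x, φ (mat G x) = v x) ∧
        ∃ ψ : V →ᵃ[ℝ] Matrix (Fin d) (Fin d) ℝ, ∀ x, ψ (v x) = mat G x) ∧
    -- (2) combinatorial symmetries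
    (∀ σ ∈ comb (mat G), (∀ τ ∈ left G, σ * τ * σ⁻¹ ∈ aff (mat G)) → σ ∈ aff (mat G)) ∧
    -- (3) subnormal subgroups
    (∀ H : Subgroup (comb (mat G)), H.IsSubnormal → (left G).subgroupOf (comb (mat G)) ≤ H →
      H ≤ (aff (mat G)).subgroupOf (comb (mat G)) → aff (mat G) = comb (mat G)) ∧
    -- (4) groups of prime power order
    (∀ p : ℕ, p.Prime → IsPGroup p G → (aff (mat G)).relIndex (comb (mat G)) ≡ 1 [MOD p]) :=
  ⟨⟨left_le_aff, aff_le_comb _⟩, fun _ _ _ _ v h1 h2 => rigidity hq v h1 h2, fun _ hσ h => conj_mem hq hσ h,
    fun H h h1 h2 => subnormal hq H h h1 h2, fun p hp hG => index_modEq hq p hp hG⟩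

end Pool.Agent.Results.MP_69dac2_co.RationalRigidity
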